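import Pool.Agent.Work.MP_d70a14_gt.Final
import Pool.Agent.Work.MP_d70a14_gt.C.Scale
import Pool.Agent.Work.MP_d70a14_gt.Conv

/-!
# A sharp sweep-out inequality for optical fibers, and its equality case

For every optical fiber and every `C^1` function `f`, `0` on one end and `1` on the other end, the
integral of `|∇f|` over the fiber is at least the area of the ends, with equality if and only if `f`
does not decrease along almost all light rays which came from the first end.  In the case of equality, if `f` is
`C^2` without critical points, then the ends are congruent.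
-/

open MeasureTheory Set Metric Filter Topology
open scoped RealInnerProductSpace ContDiff ENNReal

noncomputable section

namespace Pool.Agent.Results.MP_d70a14_gt.SweepOut

open Pool.Agent.Work.MP_d70a14_gt

theorem result {V : Set E} {a : Bool → P2 → E} {K : Bool → Set P2} (ho : Fiber V a K)
    {U : Set E} (hU : IsOpen U) (hVU : closure V ⊆ U) {f : E → ℝ} (hf : ContDiffOn ℝ 1 f U)
    (h0 : ∀ y ∈ K false, f (a false y) = 0) (h1 : ∀ y ∈ K true, f (a true y) = 1) :
    (∀ i, area (K i) ≤ gradInt V f) ∧
    (gradInt V f = area (K false) ↔ Forward V a K false f) ∧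
    (ContDiffOn ℝ 2 f U → Regular V a K f → gradInt V f = area (K false) →
      Congruent (a false '' K false) (a true '' K true)) := by
  obtain ⟨ι, rfl, ho'⟩ := ho.toOptical
  refine ⟨fun i => sweep_ineq ho' hU hVU hf h0 h1 i, ⟨fun h => ?_, fun h => ?_⟩,
    fun hf2 hreg h => ?_⟩
  · exact forward_iff.2 (mono_of_half (sweep_half ho' hU hVU hf h0 h1 false (le_of_eq h)))
  · exact sweep_total ho' hU hVU hf h0 h1 (mono_half ho' (forward_iff.1 h))
  · exact congr_of_half ho'.toBody hU hVU hf2 h0 h1 hreg.1 hreg.2
      (sweep_half ho' hU hVU hf h0 h1 false (le_of_eq h))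

end Pool.Agent.Results.MP_d70a14_gt.SweepOut

end
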