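import Pool.Agent.Work.MP_d70a14_gt.S.Final
import Pool.Agent.Work.MP_d70a14_gt.Conv

/-!
# Optical fibers with a symmetry of infinite order have congruent ends
-/

open MeasureTheory Set Metric Filter Topology
open scoped RealInnerProductSpace ContDiff ENNReal

noncomputable section

namespace Pool.Agent.Results.MP_d70a14_gt.Symmetric

open Pool.Agent.Work.MP_d70a14_gt

theorem result {V : Set E} {a : Bool → P2 → E} {K : Bool → Set P2} (ho : Fiber V a K)
    {g : E ≃ᵢ E} (hg : ∀ n : ℕ, 0 < n → g ^ n ≠ 1) (hgV : g '' V = V)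
    (hgK : ∀ i, g '' (a i '' K i) = a i '' K i) :
    Congruent (a false '' K false) (a true '' K true) := by
  obtain ⟨ι, rfl, ho'⟩ := ho.toOptical
  exact symmetric_congr ho' hg hgV hgK

end Pool.Agent.Results.MP_d70a14_gt.Symmetric

end
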